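import Pool.Agent.Y916.Al.Stm
import Pool.Agent.Y141.GF.Shid

/-!
# The derived vectors span at a point, over an arbitrary field of characteristic zero

This is `Pool.Agent.Y113.rank_point` (files `Hd`, `Rec`, `Ord`, `Rank` of `Pool/Agent/Y113/G`) with the field of rational
numbers replaced by a field `F` of characteristic `0`.
-/

set_option autoImplicit false

open PowerSeries Finset.HasAntidiagonal

namespace Pool.Agent.Y261.AL

open Pool.Agent.Y113 (nab T_shid T_loc)
open Pool.Agent.Y916.Al (hdF PdF S_rank)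

variable {F : Type} [Field F] [CharZero F]


lemma coeff_hd (k m : ℕ) (f : F⟦X⟧) : coeff m (hdF k f) = ((m + k).choose k : F) * coeff (m + k) f := by
  simp [hdF]

lemma hd_zero (f : F⟦X⟧) : hdF 0 f = f := by
  ext m; simp [coeff_hd]

lemma hd_add (k : ℕ) (f g : F⟦X⟧) : hdF k (f + g) = hdF k f + hdF k g := by
  ext m; simp [coeff_hd, mul_add]

lemma hd_map_zero (k : ℕ) : hdF k (0 : F⟦X⟧) = 0 := by
  ext m; simp [coeff_hd]

lemma hd_sum (k : ℕ) {σ : Type*} (s : Finset σ) (f : σ → F⟦X⟧) : hdF k (∑ i ∈ s, f i) = ∑ i ∈ s, hdF k (f i) := by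
  ext m
  simp [coeff_hd, Finset.mul_sum]

lemma hd_coe (k : ℕ) (P : Polynomial F) : hdF k (P : F⟦X⟧) = ((Polynomial.hasseDeriv k P : Polynomial F) : F⟦X⟧) := by
  ext m
  rw [coeff_hd, Polynomial.coeff_coe, Polynomial.coeff_coe, Polynomial.hasseDeriv_coeff]

lemma hd_mul (k : ℕ) (f g : F⟦X⟧) :
    hdF k (f * g) = ∑ p ∈ antidiagonal k, hdF p.1 f * hdF p.2 g := by
  ext m
  set P : Polynomial F := trunc (m + k + 1) f with hP
  set Q : Polynomial F := trunc (m + k + 1) g with hQ
  have hPc : ∀ l ≤ m + k, coeff l f = P.coeff l := by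
    intro l hl
    rw [hP, coeff_trunc, if_pos (by omega)]
  have hQc : ∀ l ≤ m + k, coeff l g = Q.coeff l := by
    intro l hl
    rw [hQ, coeff_trunc, if_pos (by omega)]
  have h1 : coeff m (hdF k (f * g)) = (Polynomial.hasseDeriv k (P * Q)).coeff m := by
    rw [coeff_hd, Polynomial.hasseDeriv_coeff, coeff_mul, Polynomial.coeff_mul]
    congr 1
    refine Finset.sum_congr rfl fun x hx => ?_
    rw [Finset.HasAntidiagonal.mem_antidiagonal] at hx
    rw [hPc _ (by omega), hQc _ (by omega)]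
  rw [h1, Polynomial.hasseDeriv_mul, Polynomial.finsetSum_coeff, map_sum]
  refine Finset.sum_congr rfl fun x hx => ?_
  rw [Finset.HasAntidiagonal.mem_antidiagonal] at hx
  rw [coeff_mul, Polynomial.coeff_mul]
  refine Finset.sum_congr rfl fun z hz => ?_
  rw [Finset.HasAntidiagonal.mem_antidiagonal] at hz
  rw [coeff_hd, coeff_hd, Polynomial.hasseDeriv_coeff, Polynomial.hasseDeriv_coeff, hPc _ (by omega),
    hQc _ (by omega)]

lemma hd_C_mul (k : ℕ) (c : F) (f : F⟦X⟧) : hdF k (C c * f) = C c * hdF k f := by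
  ext m
  simp [coeff_hd]
  ring

/-- `d/dz` of a divided derivative -/
lemma deriv_hd (k : ℕ) (f : F⟦X⟧) : d⁄dX F (hdF k f) = ((k : F⟦X⟧) + 1) * hdF (k + 1) f := by
  ext m
  have h1 : ((k : F⟦X⟧) + 1) = C ((k : F) + 1) := by simp
  rw [h1, coeff_derivative, coeff_C_mul, coeff_hd, coeff_hd]
  have h2 := Nat.add_one_mul_choose_eq (m + k) k
  have h4 : ((m + 1 + k).choose k : F) * (m + 1) = (k + 1) * ((m + (k + 1)).choose (k + 1) : F) := by
    have h5 : (m + 1 + k).choose k * (m + 1) = (m + k + 1) * (m + k).choose k := by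
      have := Nat.choose_mul_succ_eq (m + k) k
      rw [show m + 1 + k = m + k + 1 by ring]
      have h6 : m + k + 1 - k = m + 1 := by omega
      rw [h6] at this
      linarith
    have h7 : (m + (k + 1)).choose (k + 1) * (k + 1) = (m + k + 1) * (m + k).choose k := by
      rw [show m + (k + 1) = m + k + 1 by ring]
      exact h2.symm
    have h8 : ((m + 1 + k).choose k * (m + 1) : ℕ) = (k + 1) * (m + (k + 1)).choose (k + 1) := by
      rw [h5, mul_comm (k + 1), h7]
    exact_mod_cast h8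
  rw [show m + 1 + k = m + (k + 1) by ring] at *
  linear_combination (coeff (m + (k + 1)) f) * h4

/-- the factorial times the divided derivative -/
lemma fac_hd (k : ℕ) (f : F⟦X⟧) : (k.factorial : F⟦X⟧) * hdF k f = (⇑(d⁄dX F))^[k] f := by
  induction k with
  | zero => simp [hd_zero]
  | succ k ih =>
    rw [Function.iterate_succ_apply', ← ih, Derivation.leibniz]
    have h1 : d⁄dX F (k.factorial : F⟦X⟧) = 0 := Derivation.map_natCast _ _
    rw [h1, deriv_hd, Nat.factorial_succ]
    simp only [smul_eq_mul, mul_zero, add_zero]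
    push_cast
    ring




section Rec

variable {N : ℕ}

omit [CharZero F] in
/-- `T^k D^k y = Bm k y` -/
noncomputable def Bm (T : Polynomial F) (B : Fin N → Fin N → Polynomial F) : ℕ → Fin N → Fin N → Polynomial F
  | 0 => fun i j => if i = j then 1 else 0
  | k + 1 => fun i j => T * Polynomial.derivative (Bm T B k i j) - (k : Polynomial F) * Polynomial.derivative T *
      Bm T B k i j + ∑ l, Bm T B k i l * B l j

variable (φ : Polynomial F →+* F⟦X⟧) (hφ : ∀ p, d⁄dX F (φ p) = φ (Polynomial.derivative p))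
  {T : Polynomial F} {B : Fin N → Fin N → Polynomial F} {Y : Fin N → F⟦X⟧}
  (hY : ∀ i, φ T * d⁄dX F (Y i) = ∑ j, φ (B i j) * Y j)

include hφ hY in
lemma rec_iter (k : ℕ) (i : Fin N) :
    φ T ^ k * (⇑(d⁄dX F))^[k] (Y i) = ∑ j, φ (Bm T B k i j) * Y j := by
  induction k with
  | zero =>
    simp only [pow_zero, one_mul, Function.iterate_zero, id_eq, Bm]
    rw [Finset.sum_eq_single i]
    · simp
    · intro j _ hj; simp [hj.symm]
    · simp
  | succ k ih =>
    rw [Function.iterate_succ_apply']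
    set f := (⇑(d⁄dX F))^[k] (Y i) with hf
    have h1 := congrArg (fun x => φ T * d⁄dX F x) ih
    simp only [Derivation.leibniz, map_sum, smul_eq_mul, Derivation.leibniz_pow, hφ] at h1
    have h2 : φ T * (φ T ^ k * d⁄dX F f + f * (k • (φ T ^ (k - 1) * φ (Polynomial.derivative T)))) =
        φ T ^ (k + 1) * d⁄dX F f + (k : F⟦X⟧) * φ (Polynomial.derivative T) * (φ T ^ k * f) := by
      rcases k with _ | k
      · simp
      · simp only [Nat.add_sub_cancel, nsmul_eq_mul]
        ring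
    rw [h2, ih] at h1
    have h3 : φ T ^ (k + 1) * d⁄dX F f = φ T * ∑ j, (φ (Bm T B k i j) * d⁄dX F (Y j) +
        Y j * φ (Polynomial.derivative (Bm T B k i j))) -
        (k : F⟦X⟧) * φ (Polynomial.derivative T) * ∑ j, φ (Bm T B k i j) * Y j := by
      linear_combination h1
    rw [h3]
    have h4 : φ T * ∑ j, (φ (Bm T B k i j) * d⁄dX F (Y j) + Y j * φ (Polynomial.derivative (Bm T B k i j))) =
        ∑ j, φ (T * Polynomial.derivative (Bm T B k i j)) * Y j +
        ∑ j, φ (∑ l, Bm T B k i l * B l j) * Y j := by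
      have h5 : ∑ j, φ (∑ l, Bm T B k i l * B l j) * Y j = ∑ l, φ (Bm T B k i l) * (φ T * d⁄dX F (Y l)) := by
        simp only [hY, map_sum, map_mul, Finset.sum_mul, Finset.mul_sum]
        rw [Finset.sum_comm]
        exact Finset.sum_congr rfl fun l _ => Finset.sum_congr rfl fun j _ => by ring
      rw [h5, ← Finset.sum_add_distrib, Finset.mul_sum]
      exact Finset.sum_congr rfl fun j _ => by rw [map_mul]; ring
    rw [h4, Finset.mul_sum, ← Finset.sum_add_distrib, ← Finset.sum_sub_distrib]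
    refine Finset.sum_congr rfl fun j _ => ?_
    simp only [Bm, map_add, map_sub, map_mul, map_natCast]
    ring

include hφ in
lemma hd_phi (a : ℕ) (p : Polynomial F) : hdF a (φ p) = φ (Polynomial.hasseDeriv a p) := by
  have h1 : (a.factorial : F⟦X⟧) * hdF a (φ p) = (a.factorial : F⟦X⟧) * φ (Polynomial.hasseDeriv a p) := by
    rw [fac_hd]
    have h2 : ∀ n : ℕ, (⇑(d⁄dX F))^[n] (φ p) = φ (Polynomial.derivative^[n] p) := by
      intro n
      induction n with
      | zero => rfl
      | succ n ih => rw [Function.iterate_succ_apply', ih, hφ, Function.iterate_succ_apply']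
    rw [h2, ← Polynomial.factorial_smul_hasseDeriv]
    simp
  have h3 : (a.factorial : F⟦X⟧) ≠ 0 := by
    rw [← map_natCast (C (R := F))]
    intro h
    rw [map_eq_zero_iff _ (PowerSeries.C_injective)] at h
    exact a.factorial_ne_zero (by exact_mod_cast h)
  exact mul_left_cancel₀ h3 h1

include hφ hY in
lemma nab_iter (P : Fin N → Polynomial F) (k : ℕ) :
    ∑ j, φ ((nab T B)^[k] P j) * Y j = (fun f => φ T * d⁄dX F f)^[k] (∑ j, φ (P j) * Y j) := by
  induction k generalizing P with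
  | zero => rfl
  | succ k ih =>
    rw [Function.iterate_succ_apply, Function.iterate_succ_apply, ih]
    congr 1
    simp only [nab, map_add, map_mul, map_sum, Derivation.leibniz, smul_eq_mul, hφ]
    simp only [add_mul, Finset.sum_add_distrib, mul_add]
    rw [add_comm]
    congr 1
    · have h5 : ∑ l, φ T * (φ (P l) * d⁄dX F (Y l)) = ∑ l, φ (P l) * (φ T * d⁄dX F (Y l)) :=
        Finset.sum_congr rfl fun l _ => by ring
      rw [Finset.mul_sum, h5]
      simp only [hY, Finset.sum_mul, Finset.mul_sum]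
      rw [Finset.sum_comm]
      exact Finset.sum_congr rfl fun l _ => Finset.sum_congr rfl fun j _ => by ring
    · rw [Finset.mul_sum]
      exact Finset.sum_congr rfl fun j _ => by ring

end Rec

/-- vanishing order under `T D` -/
lemma vanish_theta (U : F⟦X⟧) (f : F⟦X⟧) (m k : ℕ) (hf : ∀ l < m, coeff l f = 0) :
    ∀ l, l + k < m → coeff l ((fun f => U * d⁄dX F f)^[k] f) = 0 := by
  induction k generalizing f m with
  | zero => intro l hl; exact hf l hl
  | succ k ih =>
    intro l hl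
    rw [Function.iterate_succ_apply]
    refine ih (U * d⁄dX F f) (m - 1) (fun l hl => ?_) l (by omega)
    rw [coeff_mul]
    refine Finset.sum_eq_zero fun p hp => ?_
    rw [Finset.HasAntidiagonal.mem_antidiagonal] at hp
    rw [coeff_derivative, hf _ (by omega)]
    ring




section Der

variable {N : ℕ}

variable (φ : Polynomial F →+* F⟦X⟧) (hφ : ∀ p, d⁄dX F (φ p) = φ (Polynomial.derivative p))
  {T : Polynomial F} {Y : Fin N → F⟦X⟧} {G : ℕ → Fin N → Fin N → Polynomial F} {K : ℕ} {g : F⟦X⟧}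
  (hG : ∀ s ≤ K, ∀ i, g * (φ T ^ s * hdF s (Y i)) = ∑ j, φ (G s i j) * Y j)

include hφ hG in
lemma Pd_eq (P : Fin N → Polynomial F) (k : ℕ) (hk : k ≤ K) :
    g * (φ T ^ k * hdF k (∑ i, φ (P i) * Y i)) = ∑ j, φ (PdF T G P k j) * Y j := by
  rw [hd_sum]
  have h1 : ∀ i, g * (φ T ^ k * hdF k (φ (P i) * Y i)) = ∑ p ∈ antidiagonal k, ∑ j,
      φ (T ^ p.1 * Polynomial.hasseDeriv p.1 (P i) * G p.2 i j) * Y j := by
    intro i
    rw [hd_mul, Finset.mul_sum, Finset.mul_sum]
    refine Finset.sum_congr rfl fun p hp => ?_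
    rw [Finset.HasAntidiagonal.mem_antidiagonal] at hp
    have h2 := hG p.2 (by omega) i
    have h3 : g * (φ T ^ k * (hdF p.1 (φ (P i)) * hdF p.2 (Y i))) =
        φ T ^ p.1 * hdF p.1 (φ (P i)) * (g * (φ T ^ p.2 * hdF p.2 (Y i))) := by
      rw [← hp, pow_add]; ring
    rw [h3, h2, Finset.mul_sum, hd_phi φ hφ]
    refine Finset.sum_congr rfl fun j _ => ?_
    simp only [map_mul, map_pow]
    ring
  rw [Finset.mul_sum, Finset.mul_sum]
  simp only [h1, PdF, map_sum, Finset.sum_mul]
  rw [Finset.sum_comm]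
  rw [Finset.sum_congr rfl fun p _ => Finset.sum_comm, Finset.sum_comm]

end Der

/-- the matrices `G` are determined by `y` and hold for other solutions -/
lemma G_transfer {N : ℕ} {T : Polynomial F} {B : Fin N → Fin N → Polynomial F} {y : Fin N → F⟦X⟧}
    (hy : ∀ i, (T : F⟦X⟧) * d⁄dX F (y i) = ∑ j, (B i j : F⟦X⟧) * y j) (hLI : LinearIndependent (Polynomial F) y)
    {G : ℕ → Fin N → Fin N → Polynomial F} {K : ℕ} {g : F}
    (hG : ∀ s ≤ K, ∀ i, C g * ((T : F⟦X⟧) ^ s * hdF s (y i)) = ∑ j, (G s i j : F⟦X⟧) * y j)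
    (φ : Polynomial F →+* F⟦X⟧) (hφ : ∀ p, d⁄dX F (φ p) = φ (Polynomial.derivative p)) (hφC : ∀ c : F, φ (Polynomial.C c) = C c)
    {w : Fin N → F⟦X⟧} (hw : ∀ i, φ T * d⁄dX F (w i) = ∑ j, φ (B i j) * w j) :
    ∀ s ≤ K, ∀ i, C g * (φ T ^ s * hdF s (w i)) = ∑ j, φ (G s i j) * w j := by
  intro s hs i
  have hψ : ∀ p : Polynomial F, d⁄dX F (Polynomial.coeToPowerSeries.ringHom p) =
      Polynomial.coeToPowerSeries.ringHom (Polynomial.derivative p) := by
    intro p
    simp [Polynomial.coeToPowerSeries.ringHom_apply, PowerSeries.derivative_coe]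
  have hfac : (s.factorial : F⟦X⟧) ≠ 0 := by
    rw [← map_natCast (C (R := F))]
    intro h
    rw [map_eq_zero_iff _ (PowerSeries.C_injective)] at h
    exact s.factorial_ne_zero (by exact_mod_cast h)
  have h1 := rec_iter Polynomial.coeToPowerSeries.ringHom hψ (T := T) (B := B) (Y := y)
    (by simpa [Polynomial.coeToPowerSeries.ringHom_apply] using hy) s i
  simp only [Polynomial.coeToPowerSeries.ringHom_apply] at h1
  -- comparison of polynomials
  have h2 : ∑ j, (Polynomial.C g * Bm T B s i j - Polynomial.C (s.factorial : F) * G s i j) • y j = 0 := by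
    have h3 := hG s hs i
    have h4 : ∑ j, ((Polynomial.C g * Bm T B s i j - Polynomial.C (s.factorial : F) * G s i j : Polynomial F) : F⟦X⟧) * y j
        = C g * ∑ j, (Bm T B s i j : F⟦X⟧) * y j - (s.factorial : F⟦X⟧) * ∑ j, (G s i j : F⟦X⟧) * y j := by
      rw [Finset.mul_sum, Finset.mul_sum, ← Finset.sum_sub_distrib]
      refine Finset.sum_congr rfl fun j _ => ?_
      push_cast
      simp only [map_natCast]
      ring
    have h5 : ∑ j, (Polynomial.C g * Bm T B s i j - Polynomial.C (s.factorial : F) * G s i j) • y j =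
        ∑ j, ((Polynomial.C g * Bm T B s i j - Polynomial.C (s.factorial : F) * G s i j : Polynomial F) : F⟦X⟧) * y j := by
      refine Finset.sum_congr rfl fun j _ => ?_
      rw [Algebra.smul_def]
      rfl
    rw [h5, h4, ← h1, ← h3, ← fac_hd]
    ring
  have h6 : ∀ j, Polynomial.C g * Bm T B s i j = Polynomial.C (s.factorial : F) * G s i j := by
    intro j
    have := (Fintype.linearIndependent_iff.1 hLI _ h2) j
    exact sub_eq_zero.1 this
  have h7 := rec_iter φ hφ hw s i
  rw [← fac_hd] at h7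
  apply mul_left_cancel₀ hfac
  have h8 : (s.factorial : F⟦X⟧) * (C g * (φ T ^ s * hdF s (w i))) =
      C g * (φ T ^ s * ((s.factorial : F⟦X⟧) * hdF s (w i))) := by ring
  rw [h8, h7, Finset.mul_sum, Finset.mul_sum]
  refine Finset.sum_congr rfl fun j _ => ?_
  have h9 := congrArg φ (h6 j)
  rw [map_mul, map_mul, hφC, hφC] at h9
  simp only [map_natCast] at h9
  linear_combination w j * h9

/-- the order of the determinant if all derived vectors are orthogonal to `v` -/
lemma det_order {N : ℕ} {T : Polynomial F} {B : Fin N → Fin N → Polynomial F}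
    (φ : Polynomial F →+* F⟦X⟧) (hφ : ∀ p, d⁄dX F (φ p) = φ (Polynomial.derivative p))
    {w : Fin N → F⟦X⟧} (hw : ∀ i, φ T * d⁄dX F (w i) = ∑ j, φ (B i j) * w j)
    (P : Fin N → Polynomial F) (m : ℕ) (hm : ∀ l < m, coeff l (∑ i, φ (P i) * w i) = 0)
    (i₀ : Fin N) (hi : constantCoeff (w i₀) ≠ 0) :
    ∀ l, l + N ≤ m → coeff l (φ (Matrix.of fun k j : Fin N => ((nab T B)^[(k : ℕ)] P) j).det) = 0 := by
  have hNpos : 0 < N := i₀.pos
  set M : Matrix (Fin N) (Fin N) (Polynomial F) := Matrix.of fun k j : Fin N => ((nab T B)^[(k : ℕ)] P) j with hM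
  set Mφ : Matrix (Fin N) (Fin N) F⟦X⟧ := M.map φ with hMφ
  have h1 : φ M.det = Mφ.det := by rw [hMφ]; exact RingHom.map_det φ M
  have h2 : Mφ.adjugate.mulVec (Mφ.mulVec w) = Mφ.det • w := by
    rw [Matrix.mulVec_mulVec, Matrix.adjugate_mul, Matrix.smul_mulVec, Matrix.one_mulVec]
  have h3 : ∀ k : Fin N, ∀ l, l + k < m → coeff l (Mφ.mulVec w k) = 0 := by
    intro k l hl
    have h4 : Mφ.mulVec w k = ∑ j, φ ((nab T B)^[(k : ℕ)] P j) * w j := rfl
    rw [h4, nab_iter φ hφ hw]
    exact vanish_theta _ _ m k hm l hl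
  -- divisibility by powers of X
  have h5 : ∀ k : Fin N, (X : F⟦X⟧) ^ (m + 1 - N) ∣ Mφ.mulVec w k := by
    intro k
    rw [PowerSeries.X_pow_dvd_iff]
    intro l hl
    exact h3 k l (by have := k.2; omega)
  have h6 : (X : F⟦X⟧) ^ (m + 1 - N) ∣ Mφ.det * w i₀ := by
    have := congrFun h2 i₀
    rw [Pi.smul_apply, smul_eq_mul] at this
    rw [← this]
    show (X : F⟦X⟧) ^ (m + 1 - N) ∣ ∑ k, Mφ.adjugate i₀ k * Mφ.mulVec w k
    exact Finset.dvd_sum fun k _ => Dvd.dvd.mul_left (h5 k) _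
  have hu : IsUnit (w i₀) := by
    rw [PowerSeries.isUnit_iff_constantCoeff]
    exact isUnit_iff_ne_zero.2 hi
  have h7 : (X : F⟦X⟧) ^ (m + 1 - N) ∣ Mφ.det := (hu.dvd_mul_right).1 h6
  rw [h1]
  intro l hl
  exact (PowerSeries.X_pow_dvd_iff.1 h7) l (by omega)




lemma natDegree_nab {N : ℕ} {T : Polynomial F} {B : Fin N → Fin N → Polynomial F} {b : ℕ} (hT : T.natDegree ≤ b)
    (hB : ∀ i j, (B i j).natDegree ≤ b) {P : Fin N → Polynomial F} {n : ℕ} (hP : ∀ i, (P i).natDegree ≤ n) (k : ℕ) :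
    ∀ j, ((nab T B)^[k] P j).natDegree ≤ n + k * b := by
  induction k generalizing P n with
  | zero => intro j; simpa using hP j
  | succ k ih =>
    intro j
    rw [Function.iterate_succ_apply]
    have h1 : ∀ i, (nab T B P i).natDegree ≤ n + b := by
      intro i
      unfold nab
      refine (Polynomial.natDegree_add_le _ _).trans (max_le ?_ ?_)
      · refine Polynomial.natDegree_mul_le.trans ?_
        have := (Polynomial.natDegree_derivative_le (P i))
        have := hP i
        omega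
      · refine Polynomial.natDegree_sum_le_of_forall_le _ _ fun l _ => ?_
        refine Polynomial.natDegree_mul_le.trans ?_
        have := hP l
        have := hB l i
        omega
    refine (ih h1 j).trans ?_
    ring_nf
    omega

lemma natDegree_det_nab {N : ℕ} {T : Polynomial F} {B : Fin N → Fin N → Polynomial F} {b : ℕ} (hT : T.natDegree ≤ b)
    (hB : ∀ i j, (B i j).natDegree ≤ b) {P : Fin N → Polynomial F} {n : ℕ} (hP : ∀ i, (P i).natDegree ≤ n) :
    (Matrix.of fun k j : Fin N => ((nab T B)^[(k : ℕ)] P) j).det.natDegree ≤ N * n + N * N * b := by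
  rw [Matrix.det_apply]
  refine Polynomial.natDegree_sum_le_of_forall_le _ _ fun σ _ => ?_
  refine (Polynomial.natDegree_smul_le _ _).trans ?_
  refine (Polynomial.natDegree_prod_le _ _).trans ?_
  have h1 : ∀ i : Fin N, ((Matrix.of fun k j : Fin N => ((nab T B)^[(k : ℕ)] P) j) (σ i) i).natDegree ≤ n + N * b := by
    intro i
    refine (natDegree_nab hT hB hP (σ i) i).trans ?_
    have : (σ i : ℕ) * b ≤ N * b := Nat.mul_le_mul_right _ (σ i).2.le
    omega
  refine (Finset.sum_le_sum fun i _ => h1 i).trans ?_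
  simp
  ring_nf
  omega

/-- the homomorphism `p ↦ p(ξ + x)` -/
noncomputable def tay (ξ : F) : Polynomial F →+* F⟦X⟧ :=
  Polynomial.coeToPowerSeries.ringHom.comp (Polynomial.taylorAlgHom ξ).toRingHom

lemma tay_apply (ξ : F) (p : Polynomial F) : tay ξ p = ((Polynomial.taylor ξ p : Polynomial F) : F⟦X⟧) := rfl

lemma tay_deriv (ξ : F) (p : Polynomial F) : d⁄dX F (tay ξ p) = tay ξ (Polynomial.derivative p) := by
  rw [tay_apply, tay_apply, PowerSeries.derivative_coe]
  congr 1
  simp only [Polynomial.taylor_apply, Polynomial.derivative_comp]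
  simp

lemma tay_C (ξ : F) (c : F) : tay ξ (Polynomial.C c) = C c := by
  rw [tay_apply, Polynomial.taylor_C, Polynomial.coe_C]

lemma coe_deriv' (p : Polynomial F) : d⁄dX F (Polynomial.coeToPowerSeries.ringHom p) =
      Polynomial.coeToPowerSeries.ringHom (Polynomial.derivative p) := by
  simp [Polynomial.coeToPowerSeries.ringHom_apply, PowerSeries.derivative_coe]

theorem rank_point (h_sh : T_shid) (h_loc : T_loc) {N : ℕ} {T : Polynomial F} {B : Fin N → Fin N → Polynomial F}
    {y : Fin N → F⟦X⟧} (hy : ∀ i, (T : F⟦X⟧) * d⁄dX F (y i) = ∑ j, (B i j : F⟦X⟧) * y j)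
    (hLI : LinearIndependent (Polynomial F) y) (i₀ : Fin N) (h1 : y i₀ = 1) (ξ : F) (hξ0 : ξ ≠ 0) (hξ : T.eval ξ ≠ 0) :
    ∃ c₁ : ℕ, ∀ (n m K : ℕ) (P : Fin N → Polynomial F), P ≠ 0 → (∀ i, (P i).natDegree ≤ n) →
      (∀ l < m, coeff l (∑ i, (P i : F⟦X⟧) * y i) = 0) → (N - 1) * n + c₁ < m → N * n + c₁ < m + K →
      ∀ (g : F) (G : ℕ → Fin N → Fin N → Polynomial F), g ≠ 0 →
      (∀ s ≤ K, ∀ i, C g * ((T : F⟦X⟧) ^ s * hdF s (y i)) = ∑ j, (G s i j : F⟦X⟧) * y j) →
      ∀ v : Fin N → F, (∀ k ≤ K, ∑ j, (PdF T G P k j).eval ξ * v j = 0) → v = 0 := by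
  obtain ⟨c, hc⟩ := h_sh F N T B y ξ hξ hy hLI
  obtain ⟨b, hbT, hbB⟩ : ∃ b : ℕ, T.natDegree ≤ b ∧ ∀ i j, (B i j).natDegree ≤ b := by
    refine ⟨T.natDegree + ∑ i, ∑ j, (B i j).natDegree, by omega, fun i j => ?_⟩
    have h2 : (B i j).natDegree ≤ ∑ j, (B i j).natDegree :=
      Finset.single_le_sum (f := fun j => (B i j).natDegree) (fun _ _ => Nat.zero_le _) (Finset.mem_univ j)
    have h3 : ∑ j, (B i j).natDegree ≤ ∑ i, ∑ j, (B i j).natDegree :=
      Finset.single_le_sum (f := fun i => ∑ j, (B i j).natDegree) (fun _ _ => Nat.zero_le _) (Finset.mem_univ i)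
    omega
  refine ⟨c + N * N * b + 2 * N, ?_⟩
  intro n m K P hP0 hPn hm hm1 hm2 g G hg hG v hv
  by_contra hv0
  have hNpos : 0 < N := i₀.pos
  set Δ := (Matrix.of fun k j : Fin N => ((nab T B)^[(k : ℕ)] P) j).det with hΔ
  have hΔ0 : Δ ≠ 0 := hc n m P hP0 hPn hm (by omega)
  have hdeg : Δ.natDegree ≤ N * n + N * N * b := natDegree_det_nab hbT hbB hPn
  -- order at 0
  have ho1 := det_order Polynomial.coeToPowerSeries.ringHom coe_deriv' (T := T) (B := B) (w := y)
    (by simpa [Polynomial.coeToPowerSeries.ringHom_apply] using hy) P m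
    (by simpa [Polynomial.coeToPowerSeries.ringHom_apply] using hm) i₀ (by rw [h1]; simp)
  have hd1 : (Polynomial.X : Polynomial F) ^ (m + 1 - N) ∣ Δ := by
    rw [Polynomial.X_pow_dvd_iff]
    intro l hl
    have := ho1 l (by omega)
    rw [Polynomial.coeToPowerSeries.ringHom_apply, Polynomial.coeff_coe] at this
    exact this
  -- local solution
  have hT0 : (Polynomial.taylor ξ T).eval 0 ≠ 0 := by
    rw [Polynomial.taylor_eval]; simpa using hξ
  obtain ⟨w, hw0, hw⟩ := h_loc F N (Polynomial.taylor ξ T) (fun i j => Polynomial.taylor ξ (B i j)) v hT0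
  have hw' : ∀ i, tay ξ T * d⁄dX F (w i) = ∑ j, tay ξ (B i j) * w j := hw
  have hGw := G_transfer hy hLI hG (tay ξ) (tay_deriv ξ) (tay_C ξ) hw'
  have hTc : constantCoeff (tay ξ T) ≠ 0 := by
    rw [tay_apply, ← PowerSeries.coeff_zero_eq_constantCoeff_apply, Polynomial.coeff_coe, Polynomial.taylor_coeff_zero]
    exact hξ
  have hf : ∀ l < K + 1, coeff l (∑ i, tay ξ (P i) * w i) = 0 := by
    intro l hl
    have h2 := Pd_eq (tay ξ) (tay_deriv ξ) hGw P l (by omega)
    have h3 := congrArg constantCoeff h2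
    rw [map_sum] at h3
    have h4 : ∀ j, constantCoeff (tay ξ (PdF T G P l j) * w j) = (PdF T G P l j).eval ξ * v j := by
      intro j
      rw [map_mul, hw0, tay_apply, ← PowerSeries.coeff_zero_eq_constantCoeff_apply, Polynomial.coeff_coe,
        Polynomial.taylor_coeff_zero]
    simp only [h4, hv l (by omega), map_mul, map_pow, constantCoeff_C] at h3
    have h5 : constantCoeff (hdF l (∑ i, tay ξ (P i) * w i)) = coeff l (∑ i, tay ξ (P i) * w i) := by
      rw [← PowerSeries.coeff_zero_eq_constantCoeff_apply, coeff_hd]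
      simp
    rw [h5] at h3
    rcases mul_eq_zero.1 h3 with h6 | h6
    · exact absurd h6 hg
    · rcases mul_eq_zero.1 h6 with h7 | h7
      · exact absurd h7 (pow_ne_zero _ hTc)
      · exact h7
  obtain ⟨j₀, hj₀⟩ : ∃ j, v j ≠ 0 := by
    by_contra hcon
    push Not at hcon
    exact hv0 (funext hcon)
  have ho2 := det_order (tay ξ) (tay_deriv ξ) hw' P (K + 1) hf j₀ (by rw [hw0]; exact hj₀)
  have hd2 : (Polynomial.X - Polynomial.C ξ) ^ (K + 2 - N) ∣ Δ := by
    have h2 : (Polynomial.X : Polynomial F) ^ (K + 2 - N) ∣ Polynomial.taylor ξ Δ := by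
      rw [Polynomial.X_pow_dvd_iff]
      intro l hl
      have := ho2 l (by omega)
      rw [tay_apply, Polynomial.coeff_coe] at this
      exact this
    obtain ⟨Q, hQ⟩ := h2
    refine ⟨Polynomial.taylor (-ξ) Q, ?_⟩
    have h3 := congrArg (Polynomial.taylor (-ξ)) hQ
    rw [Polynomial.taylor_taylor, neg_add_cancel, Polynomial.taylor_zero, Polynomial.taylor_mul] at h3
    rw [h3]
    congr 1
    rw [Polynomial.taylor_pow, Polynomial.taylor_X]
    simp [sub_eq_add_neg]
  have hcop : IsCoprime ((Polynomial.X : Polynomial F) ^ (m + 1 - N)) ((Polynomial.X - Polynomial.C ξ) ^ (K + 2 - N)) := by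
    apply IsCoprime.pow
    have := Polynomial.isCoprime_X_sub_C_of_isUnit_sub (R := F) (a := 0) (b := ξ)
      (isUnit_iff_ne_zero.2 (by simpa using hξ0))
    simpa using this
  have hdvd := hcop.mul_dvd hd1 hd2
  have hle := Polynomial.natDegree_le_of_dvd hdvd hΔ0
  rw [Polynomial.natDegree_mul (pow_ne_zero _ Polynomial.X_ne_zero) (pow_ne_zero _ (Polynomial.X_sub_C_ne_zero ξ)),
    Polynomial.natDegree_X_pow, Polynomial.natDegree_pow, Polynomial.natDegree_X_sub_C] at hle
  omega


theorem t_rank : Pool.Agent.Y916.Al.S_rank := by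
  intro F _ _ N T B y hy hLI i₀ h1 ξ hξ0 hξ
  exact rank_point Pool.Agent.Y141.GF.t_shid Pool.Agent.Y141.GF.t_loc hy hLI i₀ h1 ξ hξ0 hξ

end Pool.Agent.Y261.AL
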